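import Pool.Agent.W668.PI.Stm

/-! PI-DEL: the system on the Cantor space (MP_2f01a7_an). -/

set_option autoImplicit false

open Filter Topology

namespace Pool.Agent.W880.PI

open Pool.Agent.W668.PI

/-- indicator of `true` -/
def bb (b : Bool) : ℝ := if b then 1 else 0

/-- the weights -/
noncomputable def dv (n : ℕ) : C(ℕ → Bool, ℝ) where
  toFun y := 2 / 3 * (∏ i ∈ Finset.range n, bb (y i)) * (1 - bb (y n))
  continuous_toFun := by
    have hb : Continuous bb := continuous_of_discreteTopology
    have h1 : ∀ i : ℕ, Continuous fun y : ℕ → Bool => bb (y i) := fun i =>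
      hb.comp (continuous_apply i)
    exact (continuous_const.mul (continuous_finsetProd _ fun i _ => h1 i)).mul
      (continuous_const.sub (h1 n))

theorem dv_pos (n : ℕ) (y : ℕ → Bool) (h1 : ∀ i < n, y i = true) (h2 : y n = false) :
    dv n y = 2 / 3 := by
  change 2 / 3 * (∏ i ∈ Finset.range n, bb (y i)) * (1 - bb (y n)) = 2 / 3
  rw [Finset.prod_eq_one, h2]
  · simp [bb]
  · intro i hi
    rw [h1 i (Finset.mem_range.1 hi)]
    simp [bb]

theorem dv_zero (n : ℕ) (y : ℕ → Bool) (h : ¬ ((∀ i < n, y i = true) ∧ y n = false)) :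
    dv n y = 0 := by
  change 2 / 3 * (∏ i ∈ Finset.range n, bb (y i)) * (1 - bb (y n)) = 0
  by_cases h1 : ∀ i < n, y i = true
  · have h2 : y n = true := by
      by_contra h3
      exact h ⟨h1, by simpa using h3⟩
    rw [h2]
    simp [bb]
  · push Not at h1
    obtain ⟨i, hi, h2⟩ := h1
    have h3 : ∏ i ∈ Finset.range n, bb (y i) = 0 := by
      apply Finset.prod_eq_zero (Finset.mem_range.2 hi)
      have : y i = false := by simpa using h2
      rw [this]
      simp [bb]
    rw [h3]
    ring

theorem dv_ne (n : ℕ) (y : ℕ → Bool) (h : dv n y ≠ 0) : (∀ i < n, y i = true) ∧ y n = false := by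
  by_contra h1
  exact h (dv_zero n y h1)

/-- the charts -/
def dg (n : ℕ) : C(ℕ → Bool, ℕ → Bool) where
  toFun z i := if i < n then true else if i = n then false else z (i - n - 1)
  continuous_toFun := by
    refine continuous_pi fun i => ?_
    split_ifs
    · exact continuous_const
    · exact continuous_const
    · exact continuous_apply _

theorem dg_lt (n : ℕ) (z : ℕ → Bool) (i : ℕ) (h : i < n) : dg n z i = true := by
  change (if i < n then true else if i = n then false else z (i - n - 1)) = true
  rw [if_pos h]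

theorem dg_eq (n : ℕ) (z : ℕ → Bool) : dg n z n = false := by
  change (if n < n then true else if n = n then false else z (n - n - 1)) = false
  simp

/-- the shift -/
def dr (n : ℕ) : C(ℕ → Bool, ℕ → Bool) where
  toFun y i := y (i + n + 1)
  continuous_toFun := continuous_pi fun i => continuous_apply _

theorem nhds_true (O : Set (ℕ → Bool)) (hO : O ∈ 𝓝 (fun _ : ℕ => true)) :
    ∃ N : ℕ, ∀ y : ℕ → Bool, (∀ i < N, y i = true) → y ∈ O := by
  obtain ⟨O', hO', hopen, hmem⟩ := mem_nhds_iff.1 hO
  obtain ⟨I, u, h1, h2⟩ := isOpen_pi_iff.1 hopen _ hmem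
  refine ⟨I.sup id + 1, fun y hy => hO' (h2 ?_)⟩
  intro i hi
  have h3 : i < I.sup id + 1 := Nat.lt_succ_of_le (Finset.le_sup (f := id) hi)
  rw [hy i h3]
  exact (h1 i hi).2

theorem del : S_DEL := by
  rintro ⟨φ, U, hUp, hU1, hUφ⟩
  have he : ∃ e : C(unitInterval, ℝ) →L[ℝ] C(ℕ → Bool, ℝ), ∀ g, e g = g.comp φ := by
    let L : C(unitInterval, ℝ) →ₗ[ℝ] C(ℕ → Bool, ℝ) :=
      { toFun := fun f => f.comp φ
        map_add' := fun f g => rfl
        map_smul' := fun c f => rfl }
    refine ⟨L.mkContinuous 1 fun f => ?_, fun f => rfl⟩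
    rw [one_mul]
    exact (ContinuousMap.norm_le _ (norm_nonneg _)).2 fun y => f.norm_coe_le_norm (φ y)
  obtain ⟨e, he⟩ := he
  have hvg : ∀ n q, dv n (dg n q) = 2 / 3 := fun n q =>
    dv_pos n _ (fun i hi => dg_lt n q i hi) (dg_eq n q)
  have hdisj : ∀ m n y, m ≠ n → dv m y = 0 ∨ dv n y = 0 := by
    intro m n y hmn
    by_contra hc
    push Not at hc
    have h1 := dv_ne m y hc.1
    have h2 := dv_ne n y hc.2
    rcases lt_or_gt_of_ne hmn with h | h
    · have := h2.1 m h
      rw [h1.2] at this
      exact absurd this (by decide)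
    · have := h1.1 n h
      rw [h2.2] at this
      exact absurd this (by decide)
  have hcase : ∀ n y, dv n y = 0 ∨ dv n y = 2 / 3 := by
    intro n y
    by_cases h : (∀ i < n, y i = true) ∧ y n = false
    · right
      exact dv_pos n y h.1 h.2
    · left
      exact dv_zero n y h
  refine ⟨{
    v := dv
    vq := ContinuousMap.const _ (2 / 3)
    ρ := dr
    γ := dg
    p := fun _ => true
    U := U
    e := e
    v_nonneg := ?_
    v_le := ?_
    v_p := ?_
    disj := hdisj
    shrink := ?_
    γ_shrink := ?_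
    v_γ := hvg
    v_γ' := ?_
    ρ_γ := ?_
    U_pos := hUp
    e_pos := ?_
    U_one := hU1
    e_one := ?_
    U_e := ?_
    U_v := ?_ }⟩
  · intro n y
    rcases hcase n y with h | h
    · rw [h]
    · rw [h]
      norm_num
  · intro n y
    rcases hcase n y with h | h
    · rw [h]
      norm_num
    · rw [h]
  · intro n
    apply dv_zero
    rintro ⟨_, h⟩
    exact absurd h (by decide)
  · intro O hO
    obtain ⟨N, hN⟩ := nhds_true O hO
    refine ⟨N, fun n hn y hy => hN y fun i hi => (dv_ne n y hy).1 i (by omega)⟩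
  · intro O hO
    obtain ⟨N, hN⟩ := nhds_true O hO
    refine ⟨N, fun n hn q => hN _ fun i hi => dg_lt n q i (by omega)⟩
  · intro m n q hmn
    refine (hdisj m n (dg n q) hmn).resolve_right ?_
    rw [hvg]
    norm_num
  · intro n q
    funext i
    change (if i + n + 1 < n then true else if i + n + 1 = n then false else
      q (i + n + 1 - n - 1)) = q i
    rw [if_neg (by omega), if_neg (by omega)]
    congr 1
    omega
  · intro f hf y
    rw [he]
    exact hf _
  · rw [he]
    rfl
  · intro a
    rw [he]
    exact hUφ a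
  · intro f
    have h1 : ContinuousMap.const (ℕ → Bool) (2 / 3 : ℝ) * f = (2 / 3 : ℝ) • f := by
      ext y
      simp
    rw [h1, map_smul]

end Pool.Agent.W880.PI
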