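import Pool.Agent.W668.PI.Stm

/-! PI: gluing functions along the charts (common part of PI-T1 and PI-T2). -/

set_option autoImplicit false

open Filter Topology

namespace Pool.Agent.W880.PI

open Pool.Agent.W668.PI

section

variable {K Q M : Type} [TopologicalSpace K] [CompactSpace K] [TopologicalSpace Q]
    [CompactSpace Q] [TopologicalSpace M] [CompactSpace M] (S : Sys K Q M)

/-- `h = (1 - v) f + v e(t) ∘ ρ` -/
structure Rel (f : C(K, ℝ)) (t : ℕ → C(M, ℝ)) (h : C(K, ℝ)) : Prop where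
  pos : ∀ y n, S.v n y ≠ 0 → h y = f y + S.v n y * (S.e (t n) (S.ρ n y) - f y)
  zero : ∀ y, (∀ n, S.v n y = 0) → h y = f y

theorem Rel.uniq {S : Sys K Q M} {f : C(K, ℝ)} {t : ℕ → C(M, ℝ)} {h h' : C(K, ℝ)}
    (r : Rel S f t h) (r' : Rel S f t h') : h = h' := by
  ext y
  by_cases hy : ∀ n, S.v n y = 0
  · rw [r.zero y hy, r'.zero y hy]
  · push Not at hy
    obtain ⟨n, hn⟩ := hy
    rw [r.pos y n hn, r'.pos y n hn]

theorem Rel.uniq' {S : Sys K Q M} {f f' : C(K, ℝ)} {t : ℕ → C(M, ℝ)} {h : C(K, ℝ)}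
    (r : Rel S f t h) (r' : Rel S f' t h) : f = f' := by
  ext y
  by_cases hy : ∀ n, S.v n y = 0
  · rw [← r.zero y hy, ← r'.zero y hy]
  · push Not at hy
    obtain ⟨n, hn⟩ := hy
    have h1 := r.pos y n hn
    have h2 := r'.pos y n hn
    have h3 := S.v_le n y
    have h4 : (1 - S.v n y) * (f y - f' y) = 0 := by linarith
    rcases mul_eq_zero.1 h4 with h5 | h5
    · linarith
    · linarith

theorem Rel.add {S : Sys K Q M} {f f' : C(K, ℝ)} {t t' : ℕ → C(M, ℝ)} {h h' : C(K, ℝ)}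
    (r : Rel S f t h) (r' : Rel S f' t' h') :
    Rel S (f + f') (fun n => t n + t' n) (h + h') := by
  constructor
  · intro y n hn
    simp only [ContinuousMap.add_apply, map_add]
    rw [r.pos y n hn, r'.pos y n hn]
    ring
  · intro y hy
    simp only [ContinuousMap.add_apply]
    rw [r.zero y hy, r'.zero y hy]

theorem Rel.smul {S : Sys K Q M} {f : C(K, ℝ)} {t : ℕ → C(M, ℝ)} {h : C(K, ℝ)} (c : ℝ)
    (r : Rel S f t h) : Rel S (c • f) (fun n => c • t n) (c • h) := by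
  constructor
  · intro y n hn
    simp only [ContinuousMap.smul_apply, map_smul, smul_eq_mul]
    rw [r.pos y n hn]
    ring
  · intro y hy
    simp only [ContinuousMap.smul_apply, smul_eq_mul]
    rw [r.zero y hy]

theorem Rel.p {S : Sys K Q M} {f : C(K, ℝ)} {t : ℕ → C(M, ℝ)} {h : C(K, ℝ)}
    (r : Rel S f t h) : h S.p = f S.p := r.zero S.p S.v_p

/-- the key identity -/
theorem Rel.key {S : Sys K Q M} {f : C(K, ℝ)} {t : ℕ → C(M, ℝ)} {h : C(K, ℝ)}
    (r : Rel S f t h) (n : ℕ) :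
    S.U (h.comp (S.γ n)) = (1 / 3 : ℝ) • S.U (f.comp (S.γ n)) + (2 / 3 : ℝ) • t n := by
  have h1 : h.comp (S.γ n) = f.comp (S.γ n) + S.vq * (S.e (t n) - f.comp (S.γ n)) := by
    ext q
    simp only [ContinuousMap.comp_apply, ContinuousMap.add_apply, ContinuousMap.mul_apply,
      ContinuousMap.sub_apply]
    by_cases hq : S.vq q = 0
    · have h2 : ∀ m, S.v m (S.γ n q) = 0 := by
        intro m
        by_cases hm : m = n
        · rw [hm, S.v_γ, hq]
        · exact S.v_γ' m n q hm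
      rw [r.zero _ h2, hq]
      ring
    · have h2 : S.v n (S.γ n q) ≠ 0 := by
        rw [S.v_γ]
        exact hq
      rw [r.pos _ n h2, S.v_γ, S.ρ_γ]
  rw [h1, map_add, S.U_v, map_sub, S.U_e, smul_sub]
  have h2 : (1 / 3 : ℝ) • S.U (f.comp (S.γ n)) =
      S.U (f.comp (S.γ n)) - (2 / 3 : ℝ) • S.U (f.comp (S.γ n)) := by
    rw [show (1 / 3 : ℝ) = 1 - 2 / 3 by norm_num, sub_smul, one_smul]
  rw [h2]
  abel

theorem const_eq {X : Type} [TopologicalSpace X] (l : ℝ) :
    ContinuousMap.const X l = l • (1 : C(X, ℝ)) := by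
  ext x
  simp

theorem U_const (l : ℝ) : S.U (ContinuousMap.const Q l) = ContinuousMap.const M l := by
  rw [const_eq, const_eq, map_smul, S.U_one]

theorem e_const (l : ℝ) : S.e (ContinuousMap.const M l) = ContinuousMap.const Q l := by
  rw [const_eq, const_eq, map_smul, S.e_one]

/-- restriction to the charts converges -/
theorem comp_tendsto (f : C(K, ℝ)) :
    Tendsto (fun n => f.comp (S.γ n)) atTop (𝓝 (ContinuousMap.const Q (f S.p))) := by
  rw [Metric.tendsto_atTop]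
  intro ε hε
  have h1 : {y | dist (f y) (f S.p) < ε / 2} ∈ 𝓝 S.p :=
    f.continuous.continuousAt.eventually (Metric.ball_mem_nhds _ (by linarith))
  obtain ⟨N, hN⟩ := S.γ_shrink _ h1
  refine ⟨N, fun n hn => ?_⟩
  refine lt_of_le_of_lt ((ContinuousMap.dist_le (by linarith : (0 : ℝ) ≤ ε / 2)).2
    fun q => ?_) (by linarith : ε / 2 < ε)
  exact (hN n hn q).le

theorem U_tendsto (f : C(K, ℝ)) :
    Tendsto (fun n => S.U (f.comp (S.γ n))) atTop (𝓝 (ContinuousMap.const M (f S.p))) := by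
  have h := (S.U.continuous.tendsto _).comp (comp_tendsto S f)
  rwa [U_const] at h

/-- gluing -/
theorem glue (hsum : S_SUM) (c : ℕ → C(K, ℝ)) (hc0 : ∀ n y, S.v n y = 0 → c n y = 0)
    (hc2 : ∀ n y, |c n y| ≤ 2) (F : C(K, ℝ)) (t : ℕ → C(M, ℝ))
    (ht : Tendsto t atTop (𝓝 (ContinuousMap.const M (F S.p)))) :
    ∃ h : C(K, ℝ), (∀ y n, S.v n y ≠ 0 → h y = F y + c n y * (S.e (t n) (S.ρ n y) - F y)) ∧
      ∀ y, (∀ n, S.v n y = 0) → h y = F y := by
  set d : ℕ → C(K, ℝ) := fun n => c n * ((S.e (t n)).comp (S.ρ n) - F) with hd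
  have hdy : ∀ n y, d n y = c n y * (S.e (t n) (S.ρ n y) - F y) := fun n y => rfl
  have hd0 : ∀ n y, S.v n y = 0 → d n y = 0 := fun n y h => by
    rw [hdy, hc0 n y h, zero_mul]
  have hdisj : ∀ m n y, m ≠ n → d m y = 0 ∨ d n y = 0 := fun m n y hmn =>
    (S.disj m n y hmn).imp (hd0 m y) (hd0 n y)
  have het : Tendsto (fun n => S.e (t n)) atTop (𝓝 (ContinuousMap.const Q (F S.p))) := by
    have h := (S.e.continuous.tendsto _).comp ht
    rwa [e_const] at h
  have hlim : Tendsto (fun n => ‖d n‖) atTop (𝓝 0) := by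
    rw [Metric.tendsto_atTop]
    intro ε hε
    rw [Metric.tendsto_atTop] at het
    obtain ⟨N1, hN1⟩ := het (ε / 8) (by linarith)
    have h1 : {y | dist (F y) (F S.p) < ε / 8} ∈ 𝓝 S.p :=
      F.continuous.continuousAt.eventually (Metric.ball_mem_nhds _ (by linarith))
    obtain ⟨N2, hN2⟩ := S.shrink _ h1
    refine ⟨max N1 N2, fun n hn => ?_⟩
    rw [dist_zero_right, norm_norm]
    refine lt_of_le_of_lt ((ContinuousMap.norm_le _ (by linarith : (0 : ℝ) ≤ ε / 2)).2
      fun y => ?_) (by linarith : ε / 2 < ε)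
    rw [hdy, Real.norm_eq_abs, abs_mul]
    by_cases hy : S.v n y = 0
    · rw [hc0 n y hy, abs_zero, zero_mul]
      linarith
    · have h2 : |F y - F S.p| < ε / 8 := hN2 n (le_of_max_le_right hn) y hy
      have h3 : |S.e (t n) (S.ρ n y) - F S.p| ≤ ε / 8 := by
        have h4 := (ContinuousMap.dist_le (by linarith : (0 : ℝ) ≤ ε / 8)).1
          (hN1 n (le_of_max_le_left hn)).le (S.ρ n y)
        exact h4
      have h5 : |S.e (t n) (S.ρ n y) - F y| ≤ ε / 4 := by
        have h6 : S.e (t n) (S.ρ n y) - F y =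
            (S.e (t n) (S.ρ n y) - F S.p) - (F y - F S.p) := by ring
        rw [h6]
        exact (abs_sub _ _).trans (by linarith)
      calc |c n y| * |S.e (t n) (S.ρ n y) - F y| ≤ 2 * (ε / 4) :=
            mul_le_mul (hc2 n y) h5 (abs_nonneg _) (by norm_num)
        _ = ε / 2 := by ring
  obtain ⟨_, h2, h3⟩ := hsum K d hdisj hlim
  refine ⟨F + ∑' n, d n, fun y n hn => ?_, fun y hy => ?_⟩
  · rw [ContinuousMap.add_apply, ← hdy n y]
    congr 1
    by_cases h4 : d n y = 0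
    · rw [h4]
      apply h3
      intro m
      by_cases hm : m = n
      · rw [hm, h4]
      · exact hd0 m y ((S.disj m n y hm).resolve_right hn)
    · exact h2 y n h4
  · rw [ContinuousMap.add_apply, h3 y fun n => hd0 n y (hy n), add_zero]

theorem fwd (hsum : S_SUM) (f : C(K, ℝ)) (t : ℕ → C(M, ℝ))
    (ht : Tendsto t atTop (𝓝 (ContinuousMap.const M (f S.p)))) : ∃ h, Rel S f t h := by
  obtain ⟨h, h1, h2⟩ := glue S hsum S.v (fun n y h => h) (fun n y => by
    rw [abs_of_nonneg (S.v_nonneg n y)]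
    linarith [S.v_le n y]) f t ht
  exact ⟨h, h1, h2⟩

theorem bwd (hsum : S_SUM) (h : C(K, ℝ)) (t : ℕ → C(M, ℝ))
    (ht : Tendsto t atTop (𝓝 (ContinuousMap.const M (h S.p)))) : ∃ f, Rel S f t h := by
  have hpos : ∀ n y, 0 < 1 - S.v n y := fun n y => by linarith [S.v_le n y]
  set w : ℕ → C(K, ℝ) := fun n => ⟨fun y => -(S.v n y / (1 - S.v n y)), by
    have := (S.v n).continuous
    exact (this.div (continuous_const.sub this) fun y => (hpos n y).ne').neg⟩ with hw
  have hwy : ∀ n y, w n y = -(S.v n y / (1 - S.v n y)) := fun n y => rfl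
  obtain ⟨f, h1, h2⟩ := glue S hsum w (fun n y h => by rw [hwy, h]; simp) (fun n y => by
    rw [hwy, abs_neg, abs_of_nonneg (div_nonneg (S.v_nonneg n y) (hpos n y).le),
      div_le_iff₀ (hpos n y)]
    linarith [S.v_le n y]) h t ht
  refine ⟨f, fun y n hn => ?_, fun y hy => (h2 y hy).symm⟩
  rw [h1 y n hn, hwy]
  have := (hpos n y).ne'
  field_simp
  ring

/-- the glued function as a continuous linear map -/
theorem exists_H (hsum : S_SUM) {E : Type} [NormedAddCommGroup E] [NormedSpace ℝ E]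
    (F : E →L[ℝ] C(K, ℝ)) (t : ℕ → E →L[ℝ] C(M, ℝ)) (C : ℝ)
    (hC : ∀ n x, ‖t n x‖ ≤ C * ‖x‖)
    (ht : ∀ x, Tendsto (fun n => t n x) atTop (𝓝 (ContinuousMap.const M (F x S.p)))) :
    ∃ H : E →L[ℝ] C(K, ℝ), ∀ x, Rel S (F x) (fun n => t n x) (H x) := by
  choose H0 hH0 using fun x => fwd S hsum (F x) (fun n => t n x) (ht x)
  let L : E →ₗ[ℝ] C(K, ℝ) :=
    { toFun := H0
      map_add' := fun x y => by
        have h1 := (hH0 x).add (hH0 y)
        have h2 := hH0 (x + y)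
        simp only [map_add] at h2
        exact h2.uniq h1
      map_smul' := fun c x => by
        have h1 := (hH0 x).smul c
        have h2 := hH0 (c • x)
        simp only [map_smul] at h2
        exact h2.uniq h1 }
  have hbound : ∀ x, ‖L x‖ ≤ (2 * ‖F‖ + ‖S.e‖ * |C|) * ‖x‖ := by
    intro x
    have hx : 0 ≤ ‖x‖ := norm_nonneg _
    refine (ContinuousMap.norm_le _ (by positivity)).2 fun y => ?_
    have hF : |F x y| ≤ ‖F‖ * ‖x‖ := ((F x).norm_coe_le_norm y).trans (F.le_opNorm x)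
    have hr := hH0 x
    have hL : L x = H0 x := rfl
    rw [hL, Real.norm_eq_abs]
    by_cases hy : ∀ n, S.v n y = 0
    · rw [hr.zero y hy]
      have : 0 ≤ ‖F‖ * ‖x‖ + ‖S.e‖ * |C| * ‖x‖ := by positivity
      nlinarith
    · push Not at hy
      obtain ⟨n, hn⟩ := hy
      rw [hr.pos y n hn]
      have h1 : |S.e (t n x) (S.ρ n y)| ≤ ‖S.e‖ * |C| * ‖x‖ := by
        calc |S.e (t n x) (S.ρ n y)| ≤ ‖S.e (t n x)‖ := (S.e (t n x)).norm_coe_le_norm _
          _ ≤ ‖S.e‖ * ‖t n x‖ := S.e.le_opNorm _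
          _ ≤ ‖S.e‖ * (|C| * ‖x‖) := by
              have h6 : ‖t n x‖ ≤ |C| * ‖x‖ :=
                (hC n x).trans (mul_le_mul_of_nonneg_right (le_abs_self C) hx)
              have h7 : 0 ≤ ‖S.e‖ := ContinuousLinearMap.opNorm_nonneg _
              exact mul_le_mul_of_nonneg_left h6 h7
          _ = _ := by ring
      have h2 := S.v_nonneg n y
      have h3 := S.v_le n y
      have h4 : |F x y + S.v n y * (S.e (t n x) (S.ρ n y) - F x y)| ≤
          |F x y| + 1 * (|S.e (t n x) (S.ρ n y)| + |F x y|) := by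
        refine (abs_add_le _ _).trans (add_le_add le_rfl ?_)
        rw [abs_mul, abs_of_nonneg h2]
        exact mul_le_mul (by linarith) (abs_sub _ _) (abs_nonneg _) zero_le_one
      refine h4.trans ?_
      nlinarith
  exact ⟨L.mkContinuous _ hbound, fun x => hH0 x⟩

/-- restriction to the `n`-th chart followed by `U` -/
theorem exists_s (n : ℕ) : ∃ s : C(K, ℝ) →L[ℝ] C(M, ℝ), ∀ f, s f = S.U (f.comp (S.γ n)) := by
  let L : C(K, ℝ) →ₗ[ℝ] C(Q, ℝ) :=
    { toFun := fun f => f.comp (S.γ n)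
      map_add' := fun f g => rfl
      map_smul' := fun c f => rfl }
  refine ⟨S.U.comp (L.mkContinuous 1 fun f => ?_), fun f => rfl⟩
  rw [one_mul]
  refine (ContinuousMap.norm_le _ (norm_nonneg _)).2 fun y => ?_
  exact f.norm_coe_le_norm (S.γ n y)

theorem comp_norm_le (n : ℕ) (f : C(K, ℝ)) : ‖S.U (f.comp (S.γ n))‖ ≤ ‖S.U‖ * ‖f‖ := by
  refine (S.U.le_opNorm _).trans (mul_le_mul_of_nonneg_left ?_ (norm_nonneg _))
  refine (ContinuousMap.norm_le _ (norm_nonneg _)).2 fun y => ?_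
  exact f.norm_coe_le_norm (S.γ n y)

end

/-- perturbed contraction -/
theorem half_tendsto (x c : ℕ → ℝ) (hx : ∀ n, 0 ≤ x n) (hc : Tendsto c atTop (𝓝 0))
    (h : ∀ n, x (n + 1) ≤ c n + x n / 2) : Tendsto x atTop (𝓝 0) := by
  rw [Metric.tendsto_atTop]
  intro ε hε
  obtain ⟨N, hN⟩ := eventually_atTop.1 (hc.eventually_lt_const (show (0 : ℝ) < ε / 4 by linarith))
  have h1 : ∀ k, x (N + k) ≤ ε / 2 + x N * (1 / 2) ^ k := by
    intro k
    induction k with
    | zero =>
      simp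
      linarith
    | succ k ih =>
      have h2 := h (N + k)
      have h3 := hN (N + k) (by omega)
      have h4 : x (N + (k + 1)) = x (N + k + 1) := rfl
      rw [h4, pow_succ]
      linarith
  have h2 : Tendsto (fun k : ℕ => x N * (1 / 2 : ℝ) ^ k) atTop (𝓝 (x N * 0)) :=
    (tendsto_pow_atTop_nhds_zero_of_lt_one (by norm_num) (by norm_num)).const_mul _
  rw [mul_zero] at h2
  obtain ⟨k0, hk0⟩ := eventually_atTop.1 (h2.eventually_lt_const (show (0 : ℝ) < ε / 4 by linarith))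
  refine ⟨N + k0, fun n hn => ?_⟩
  obtain ⟨k, rfl⟩ := Nat.exists_eq_add_of_le (le_trans (Nat.le_add_right N k0) hn)
  have h3 := h1 k
  have h4 := hk0 k (by omega)
  rw [Real.dist_eq, sub_zero, abs_of_nonneg (hx _)]
  linarith

end Pool.Agent.W880.PI
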