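import Pool.Agent.W668.PI.Stm

/-! PI-SUM: sums of disjointly supported continuous functions (MP_2f01a7_an). -/

set_option autoImplicit false

open Filter Topology

namespace Pool.Agent.W880.PI

open Pool.Agent.W668.PI

theorem sum : S_SUM := by
  intro K _ _ d hdisj hlim
  have hs : Summable d := by
    rw [summable_iff_vanishing_norm]
    intro ε hε
    have hev : ∀ᶠ n in atTop, ‖d n‖ < ε / 2 := hlim.eventually_lt_const (by linarith)
    obtain ⟨N, hN⟩ := eventually_atTop.1 hev
    refine ⟨Finset.range N, fun t ht => ?_⟩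
    refine lt_of_le_of_lt ((ContinuousMap.norm_le _ (by linarith : (0 : ℝ) ≤ ε / 2)).2
      fun y => ?_) (by linarith : ε / 2 < ε)
    rw [ContinuousMap.sum_apply]
    by_cases h : ∃ n ∈ t, d n y ≠ 0
    · obtain ⟨n, hn, hny⟩ := h
      rw [Finset.sum_eq_single_of_mem n hn fun m _ hmn => (hdisj m n y hmn).resolve_right hny]
      have hNn : N ≤ n := by
        by_contra hlt
        exact Finset.disjoint_left.1 ht hn (Finset.mem_range.2 (not_le.1 hlt))
      exact ((d n).norm_coe_le_norm y).trans (hN n hNn).le
    · push Not at h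
      rw [Finset.sum_eq_zero h, norm_zero]
      linarith
  have hev : ∀ y, (∑' k, d k) y = ∑' k, d k y := fun y => (ContinuousMap.tsum_apply hs y).symm
  refine ⟨hs, fun y n h => ?_, fun y h => ?_⟩
  · rw [hev, tsum_eq_single n fun m hm => (hdisj m n y hm).resolve_right h]
  · rw [hev]
    simp [h]

end Pool.Agent.W880.PI
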