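import Pool.Agent.W880.PI.Glue

/-! PI-T1: first abstract isomorphism (MP_2f01a7_an). -/

set_option autoImplicit false

open Filter Topology

namespace Pool.Agent.W880.PI

open Pool.Agent.W668.PI

theorem t1 (hsum : S_SUM) : S_T1 := by
  intro K Q M _ _ _ _ _ _ S
  choose s hs using exists_s S
  have hsb : ∀ n f, ‖s n f‖ ≤ ‖S.U‖ * ‖f‖ := fun n f => by
    rw [hs]
    exact comp_norm_le S n f
  have hst : ∀ f, Tendsto (fun n => s n f) atTop (𝓝 (ContinuousMap.const M (f S.p))) := by
    intro f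
    simp_rw [hs]
    exact U_tendsto S f
  obtain ⟨H, hH⟩ := exists_H S hsum (ContinuousLinearMap.id ℝ C(K, ℝ)) (fun n => s (n + 1))
    ‖S.U‖ (fun n f => hsb (n + 1) f) (fun f => (tendsto_add_atTop_iff_nat 1).2 (hst f))
  simp only [ContinuousLinearMap.id_apply] at hH
  have hkey : ∀ f n, S.U ((H f).comp (S.γ n)) =
      (1 / 3 : ℝ) • s n f + (2 / 3 : ℝ) • s (n + 1) f := by
    intro f n
    rw [(hH f).key n, hs n f]
  set T : C(K, ℝ) →L[ℝ] (C(M, ℝ) × C(K, ℝ)) := (s 0).prod H with hT
  have hTf : ∀ f, T f = (s 0 f, H f) := fun f => rfl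
  -- injectivity
  have hinj : Function.Injective T := by
    rw [injective_iff_map_eq_zero]
    intro f hf
    rw [hTf, Prod.mk_eq_zero] at hf
    have h0 : ∀ n, s n f = 0 := by
      intro n
      induction n with
      | zero => exact hf.1
      | succ n ih =>
        have h1 := hkey f n
        rw [hf.2, ih, smul_zero, zero_add] at h1
        have h2 : ((0 : C(K, ℝ)).comp (S.γ n)) = 0 := rfl
        rw [h2, map_zero] at h1
        exact (smul_eq_zero.1 h1.symm).resolve_left (by norm_num)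
    have h1 := hH f
    rw [hf.2] at h1
    have h2 : (fun n => s (n + 1) f) = fun _ => 0 := by
      funext n
      exact h0 (n + 1)
    rw [h2] at h1
    have h3 : Rel S 0 (fun _ => 0) 0 := by
      constructor
      · intro y n _
        simp
      · intro y _
        simp
    exact h1.uniq' h3
  -- surjectivity
  have hsurj : Function.Surjective T := by
    rintro ⟨a, h⟩
    obtain ⟨u, hu⟩ : ∃ u : ℕ → C(M, ℝ), ∀ n, u n = S.U (h.comp (S.γ n)) := ⟨_, fun _ => rfl⟩
    obtain ⟨σ, hσ0, hσ1⟩ : ∃ σ : ℕ → C(M, ℝ), σ 0 = a ∧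
        ∀ n, σ (n + 1) = (3 / 2 : ℝ) • u n - (1 / 2 : ℝ) • σ n :=
      ⟨fun n => Nat.rec a (fun n x => (3 / 2 : ℝ) • u n - (1 / 2 : ℝ) • x) n, rfl, fun n => rfl⟩
    obtain ⟨l, hl⟩ : ∃ l : C(M, ℝ), l = ContinuousMap.const M (h S.p) := ⟨_, rfl⟩
    have hut : Tendsto (fun n => ‖u n - l‖) atTop (𝓝 0) := by
      have h1 := U_tendsto S h
      rw [← hl] at h1
      have h2 := (tendsto_iff_norm_sub_tendsto_zero).1 h1
      simp_rw [hu]
      exact h2
    have hσt : Tendsto (fun n => ‖σ n - l‖) atTop (𝓝 0) := by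
      apply half_tendsto _ (fun n => 3 / 2 * ‖u n - l‖) (fun n => norm_nonneg _)
      · have h1 := hut.const_mul (3 / 2 : ℝ)
        rwa [mul_zero] at h1
      · intro n
        have h1 : σ (n + 1) - l = (3 / 2 : ℝ) • (u n - l) - (1 / 2 : ℝ) • (σ n - l) := by
          rw [hσ1]
          module
        rw [h1]
        refine (norm_sub_le _ _).trans ?_
        rw [norm_smul, norm_smul]
        norm_num
        linarith
    have hσt' : Tendsto σ atTop (𝓝 (ContinuousMap.const M (h S.p))) := by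
      rw [← hl]
      exact tendsto_iff_norm_sub_tendsto_zero.2 hσt
    obtain ⟨f, hf⟩ := bwd S hsum h (fun n => σ (n + 1)) ((tendsto_add_atTop_iff_nat 1).2 hσt')
    have hsf : ∀ n, s n f = σ n := by
      intro n
      have h1 := hf.key n
      rw [← hs n f, ← hu n] at h1
      have h2 : (1 / 3 : ℝ) • s n f = (1 / 3 : ℝ) • σ n := by
        have h3 : (1 / 3 : ℝ) • s n f = u n - (2 / 3 : ℝ) • σ (n + 1) := by
          rw [h1]
          abel
        rw [h3, hσ1]
        module
      have h3 := congrArg (fun x => (3 : ℝ) • x) h2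
      simp only [smul_smul] at h3
      norm_num at h3
      exact h3
    refine ⟨f, ?_⟩
    rw [hTf, hsf 0, hσ0, Prod.mk.injEq]
    refine ⟨rfl, ?_⟩
    have h1 := hH f
    have h2 : (fun n => s (n + 1) f) = fun n => σ (n + 1) := by
      funext n
      exact hsf (n + 1)
    rw [h2] at h1
    exact h1.uniq hf
  refine ⟨ContinuousLinearEquiv.ofBijective T (LinearMap.ker_eq_bot.2 hinj)
    (LinearMap.range_eq_top.2 hsurj), fun f hf => ?_⟩
  have hcoe : (ContinuousLinearEquiv.ofBijective T (LinearMap.ker_eq_bot.2 hinj)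
    (LinearMap.range_eq_top.2 hsurj)) f = T f := rfl
  rw [hcoe, hTf]
  have hs0 : ∀ n y, 0 ≤ s n f y := by
    intro n y
    rw [hs]
    exact S.U_pos _ (fun q => hf _) y
  refine ⟨hs0 0, fun y => ?_⟩
  by_cases hy : ∀ n, S.v n y = 0
  · dsimp only
    rw [(hH f).zero y hy]
    exact hf y
  · push Not at hy
    obtain ⟨n, hn⟩ := hy
    dsimp only
    rw [(hH f).pos y n hn]
    have h1 := S.e_pos _ (hs0 (n + 1)) (S.ρ n y)
    have h2 := S.v_nonneg n y
    have h3 := S.v_le n y
    have h4 := hf y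
    have h5 : f y + S.v n y * (S.e (s (n + 1) f) (S.ρ n y) - f y) =
        (1 - S.v n y) * f y + S.v n y * S.e (s (n + 1) f) (S.ρ n y) := by ring
    rw [h5]
    exact add_nonneg (mul_nonneg (by linarith) h4) (mul_nonneg h2 h1)

end Pool.Agent.W880.PI
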