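import Pool.Agent.W880.PI.Glue

/-! PI-T2: second abstract isomorphism (MP_2f01a7_an). -/

set_option autoImplicit false

open Filter Topology

namespace Pool.Agent.W880.PI

open Pool.Agent.W668.PI

/-- solving `σ n = η n - σ (n+1) / 2` -/
theorem exists_sigma {E : Type} [NormedAddCommGroup E] [NormedSpace ℝ E] [CompleteSpace E]
    (η : ℕ → E) (hη : Tendsto η atTop (𝓝 0)) :
    ∃ σ : ℕ → E, (∀ n, σ n = η n - (1 / 2 : ℝ) • σ (n + 1)) ∧ Tendsto σ atTop (𝓝 0) := by
  have hbdd : ∃ B : ℝ, 0 ≤ B ∧ ∀ n, ‖η n‖ ≤ B := by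
    obtain ⟨B, hB⟩ := (hη.norm).bddAbove_range
    refine ⟨max B 0, le_max_right _ _, fun n => ?_⟩
    exact (hB ⟨n, rfl⟩).trans (le_max_left _ _)
  obtain ⟨B, hB0, hB⟩ := hbdd
  have hgeo : ∀ C : ℝ, Summable fun k : ℕ => (1 / 2 : ℝ) ^ k * C := fun C =>
    (summable_geometric_of_lt_one (by norm_num) (by norm_num)).mul_right C
  have hn : ∀ (n k : ℕ) (C : ℝ), (∀ m, n ≤ m → ‖η m‖ ≤ C) →
      ‖(-1 / 2 : ℝ) ^ k • η (n + k)‖ ≤ (1 / 2 : ℝ) ^ k * C := by
    intro n k C hC
    rw [norm_smul, norm_pow]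
    have h1 : ‖(-1 / 2 : ℝ)‖ = 1 / 2 := by
      rw [Real.norm_eq_abs]
      norm_num
    rw [h1]
    exact mul_le_mul_of_nonneg_left (hC _ (by omega)) (by positivity)
  have hsum : ∀ n, Summable fun k : ℕ => (-1 / 2 : ℝ) ^ k • η (n + k) := fun n =>
    Summable.of_norm_bounded (hgeo B) fun k => hn n k B fun m _ => hB m
  refine ⟨fun n => ∑' k : ℕ, (-1 / 2 : ℝ) ^ k • η (n + k), fun n => ?_, ?_⟩
  · change ∑' k : ℕ, (-1 / 2 : ℝ) ^ k • η (n + k) =
      η n - (1 / 2 : ℝ) • ∑' k : ℕ, (-1 / 2 : ℝ) ^ k • η (n + 1 + k)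
    rw [(hsum n).tsum_eq_zero_add, pow_zero, one_smul, add_zero, sub_eq_add_neg, ← neg_smul,
      ← (hsum (n + 1)).tsum_const_smul]
    congr 2
    funext k
    rw [smul_smul, pow_succ]
    have h1 : n + (k + 1) = n + 1 + k := by omega
    rw [h1]
    congr 1
    ring
  · rw [Metric.tendsto_atTop]
    intro ε hε
    obtain ⟨N, hN⟩ := Metric.tendsto_atTop.1 hη (ε / 4) (by linarith)
    refine ⟨N, fun n hnN => ?_⟩
    rw [dist_zero_right]
    have h1 : ‖∑' k : ℕ, (-1 / 2 : ℝ) ^ k • η (n + k)‖ ≤ 2 * (ε / 4) := by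
      have h2 : HasSum (fun k : ℕ => (1 / 2 : ℝ) ^ k * (ε / 4)) (2 * (ε / 4)) := by
        have h3 := (hasSum_geometric_of_lt_one (r := (1 / 2 : ℝ)) (by norm_num)
          (by norm_num)).mul_right (ε / 4)
        norm_num at h3 ⊢
        exact h3
      refine tsum_of_norm_bounded h2 fun k => ?_
      refine hn n k _ fun m hm => ?_
      have h4 := hN m (by omega)
      rw [dist_zero_right] at h4
      exact h4.le
    linarith

theorem t2 (hsum : S_SUM) : S_T2 := by
  intro K Q M _ _ _ _ _ _ S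
  choose s hs using exists_s S
  have hsb : ∀ n f, ‖s n f‖ ≤ ‖S.U‖ * ‖f‖ := fun n f => by
    rw [hs]
    exact comp_norm_le S n f
  have hst : ∀ f, Tendsto (fun n => s n f) atTop (𝓝 (ContinuousMap.const M (f S.p))) := by
    intro f
    simp_rw [hs]
    exact U_tendsto S f
  have hU0 : 0 ≤ ‖S.U‖ := ContinuousLinearMap.opNorm_nonneg _
  obtain ⟨F, hF⟩ : ∃ F : (C(M, ℝ) × C(K, ℝ)) →L[ℝ] C(K, ℝ), ∀ g, F g = g.2 :=
    ⟨ContinuousLinearMap.snd ℝ _ _, fun g => rfl⟩
  obtain ⟨t, ht0, ht1⟩ : ∃ t : ℕ → (C(M, ℝ) × C(K, ℝ)) →L[ℝ] C(M, ℝ), (∀ g, t 0 g = g.1) ∧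
      ∀ n g, t (n + 1) g = s n g.2 :=
    ⟨fun n => Nat.casesOn n (ContinuousLinearMap.fst ℝ _ _)
      (fun n => (s n).comp (ContinuousLinearMap.snd ℝ _ _)), fun g => rfl, fun n g => rfl⟩
  have htlim : ∀ g, Tendsto (fun n => t n g) atTop (𝓝 (ContinuousMap.const M (F g S.p))) := by
    intro g
    rw [← tendsto_add_atTop_iff_nat 1]
    simp_rw [ht1, hF]
    exact hst g.2
  obtain ⟨H, hH⟩ := exists_H S hsum F t (‖S.U‖ + 1) (fun n g => by
    have h1 : ‖g.1‖ ≤ ‖g‖ := norm_fst_le g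
    have h2 : ‖g.2‖ ≤ ‖g‖ := norm_snd_le g
    have h3 : 0 ≤ ‖g‖ := norm_nonneg _
    rcases n with _ | n
    · rw [ht0]
      nlinarith
    · rw [ht1]
      have h4 := hsb n g.2
      have h5 := mul_le_mul_of_nonneg_left h2 hU0
      nlinarith) htlim
  have hkey : ∀ g n, S.U ((H g).comp (S.γ n)) =
      (1 / 3 : ℝ) • t (n + 1) g + (2 / 3 : ℝ) • t n g := by
    intro g n
    rw [(hH g).key n, ht1, hs n g.2, hF]
  -- injectivity
  have hinj : Function.Injective H := by
    rw [injective_iff_map_eq_zero]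
    intro g hg
    have hr := hH g
    rw [hg] at hr
    have hp : F g S.p = 0 := by
      have := hr.p
      simpa using this.symm
    have h1 : ∀ n, t (n + 1) g = (-2 : ℝ) • t n g := by
      intro n
      have h2 := hkey g n
      rw [hg] at h2
      have h3 : ((0 : C(K, ℝ)).comp (S.γ n)) = 0 := rfl
      rw [h3, map_zero] at h2
      have h4 : (1 / 3 : ℝ) • t (n + 1) g = -((2 / 3 : ℝ) • t n g) :=
        eq_neg_of_add_eq_zero_left h2.symm
      calc t (n + 1) g = (3 : ℝ) • ((1 / 3 : ℝ) • t (n + 1) g) := by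
            rw [smul_smul]
            norm_num
        _ = (-2 : ℝ) • t n g := by
            rw [h4]
            module
    have h2 : ∀ n, ‖t n g‖ ≤ ‖t (n + 1) g‖ := by
      intro n
      rw [h1, norm_smul]
      norm_num
      have := norm_nonneg (t n g)
      linarith
    have hmono : Monotone fun n => ‖t n g‖ := monotone_nat_of_le_succ h2
    have hlim : Tendsto (fun n => ‖t n g‖) atTop (𝓝 0) := by
      have h3 := (htlim g).norm
      rw [hp] at h3
      have h4 : (ContinuousMap.const M (0 : ℝ)) = 0 := rfl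
      rw [h4, norm_zero] at h3
      exact h3
    have h0 : ∀ n, t n g = 0 := by
      intro n
      have h3 := hmono.ge_of_tendsto hlim n
      exact norm_le_zero_iff.1 h3
    have h3 : F g = 0 := by
      have h4 : (fun n => t n g) = fun _ => 0 := by
        funext n
        exact h0 n
      rw [h4] at hr
      have h5 : Rel S 0 (fun _ => 0) 0 := by
        constructor
        · intro y n _
          simp
        · intro y _
          simp
      exact hr.uniq' h5
    have h4 := h0 0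
    rw [ht0] at h4
    rw [hF] at h3
    exact Prod.ext h4 h3
  -- surjectivity
  have hsurj : Function.Surjective H := by
    intro h
    obtain ⟨u, hu⟩ : ∃ u : ℕ → C(M, ℝ), ∀ n, u n = S.U (h.comp (S.γ n)) := ⟨_, fun _ => rfl⟩
    obtain ⟨l, hl⟩ : ∃ l : C(M, ℝ), l = ContinuousMap.const M (h S.p) := ⟨_, rfl⟩
    have hut : Tendsto (fun n => (3 / 2 : ℝ) • (u n - l)) atTop (𝓝 0) := by
      have h1 := U_tendsto S h
      rw [← hl] at h1
      have h2 : Tendsto u atTop (𝓝 l) := by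
        refine h1.congr fun n => (hu n).symm
      have h3 := (h2.sub_const l).const_smul (3 / 2 : ℝ)
      rwa [sub_self, smul_zero] at h3
    obtain ⟨σ, hσ1, hσ2⟩ := exists_sigma _ hut
    have hτ : Tendsto (fun n => l + σ n) atTop (𝓝 (ContinuousMap.const M (h S.p))) := by
      have h1 := hσ2.const_add l
      rw [add_zero] at h1
      rw [← hl]
      exact h1
    obtain ⟨f, hf⟩ := bwd S hsum h (fun n => l + σ n) hτ
    have hsf : ∀ n, s n f = l + σ (n + 1) := by
      intro n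
      have h1 := hf.key n
      rw [← hs n f, ← hu n] at h1
      have h2 := hσ1 n
      have h3 : u n = (1 / 3 : ℝ) • (l + σ (n + 1)) + (2 / 3 : ℝ) • (l + σ n) := by
        rw [h2]
        module
      rw [h3] at h1
      have h4 : (1 / 3 : ℝ) • s n f = (1 / 3 : ℝ) • (l + σ (n + 1)) :=
        (add_right_cancel h1).symm
      calc s n f = (3 : ℝ) • ((1 / 3 : ℝ) • s n f) := by
            rw [smul_smul]
            norm_num
        _ = l + σ (n + 1) := by
            rw [h4, smul_smul]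
            norm_num
    refine ⟨(l + σ 0, f), ?_⟩
    have h1 := hH (l + σ 0, f)
    have h2 : (fun n => t n (l + σ 0, f)) = fun n => l + σ n := by
      funext n
      rcases n with _ | n
      · rw [ht0]
      · rw [ht1]
        exact hsf n
    rw [h2, hF] at h1
    exact h1.uniq hf
  refine ⟨ContinuousLinearEquiv.ofBijective H (LinearMap.ker_eq_bot.2 hinj)
    (LinearMap.range_eq_top.2 hsurj), fun g hg1 hg2 y => ?_⟩
  have hcoe : (ContinuousLinearEquiv.ofBijective H (LinearMap.ker_eq_bot.2 hinj)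
    (LinearMap.range_eq_top.2 hsurj)) g = H g := rfl
  rw [hcoe]
  have ht : ∀ n y, 0 ≤ t n g y := by
    intro n y
    rcases n with _ | n
    · rw [ht0]
      exact hg1 y
    · rw [ht1, hs]
      exact S.U_pos _ (fun q => hg2 _) y
  by_cases hy : ∀ n, S.v n y = 0
  · rw [(hH g).zero y hy, hF]
    exact hg2 y
  · push Not at hy
    obtain ⟨n, hn⟩ := hy
    rw [(hH g).pos y n hn, hF]
    have h1 := S.e_pos _ (ht n) (S.ρ n y)
    have h2 := S.v_nonneg n y
    have h3 := S.v_le n y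
    have h4 := hg2 y
    have h5 : g.2 y + S.v n y * (S.e (t n g) (S.ρ n y) - g.2 y) =
        (1 - S.v n y) * g.2 y + S.v n y * S.e (t n g) (S.ρ n y) := by ring
    rw [h5]
    exact add_nonneg (mul_nonneg (by linarith) h4) (mul_nonneg h2 h1)

end Pool.Agent.W880.PI
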